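import Pool.Agent.helper64.PC.SpecR

/-!
# pc:ABR
-/

set_option autoImplicit false

namespace Pool.Agent.PC

open Finset Pool.Agent.PB

theorem ABR (hAPR : APR_stmt) : ABR_stmt := by
  intro P A Om _ _ _ _ S N ρ u s hA hOm hu hg hn
  classical
  obtain ⟨l, hl, hls, v, hv, τ, hτ⟩ := hu
  obtain ⟨E, E', hE, hE', hF⟩ := hAPR P A Om S N ρ l hA hl
  obtain ⟨F, hFc, hFg, hFn⟩ := hF v hv
  by_cases hB : ∃ B ∈ lev S.PF S.t F τ, B.card ≤ S.t
  · right
    obtain ⟨B, hB, hBt⟩ := hB
    obtain ⟨hBP, -, hBτ⟩ := mem_lev.1 hB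
    have h1 : ct (fun w => B ⊆ S.nu w) ≤ E'.card := by
      rw [ct_eq]
      apply card_le_card
      intro w hw
      by_contra hw'
      have h2 := hFn w hw' B hBP hBt (mem_filter.1 hw).2
      have h3 := (hτ (inp ρ (S.nu w))).2 (hBτ.trans h2)
      rw [hn w] at h3
      exact Bool.false_ne_true h3
    have h2 := S.hit1 B hBP hBt
    have h3 : Fintype.card Om * S.M ≤
        (s * (S.lam * (Fintype.card P + 1) ^ (2 * S.t))) * Fintype.card Om := by
      calc Fintype.card Om * S.M ≤ (ct (fun w => B ⊆ S.nu w) * S.lam) * S.M := Nat.mul_le_mul_right _ h2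
        _ ≤ (E'.card * S.lam) * S.M := Nat.mul_le_mul_right _ (Nat.mul_le_mul_right _ h1)
        _ = (E'.card * S.M) * S.lam := by ring
        _ ≤ (l.length * ((Fintype.card P + 1) ^ (2 * S.t) * Fintype.card Om)) * S.lam :=
          Nat.mul_le_mul_right _ hE'
        _ ≤ (s * ((Fintype.card P + 1) ^ (2 * S.t) * Fintype.card Om)) * S.lam :=
          Nat.mul_le_mul_right _ (Nat.mul_le_mul_right _ hls)
        _ = (s * (S.lam * (Fintype.card P + 1) ^ (2 * S.t))) * Fintype.card Om := by ring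
    rw [mul_comm] at h3
    exact Nat.le_of_mul_le_mul_right h3 hOm
  · left
    push Not at hB
    have h1 : E = univ := by
      rw [eq_univ_iff_forall]
      intro a
      by_contra ha
      obtain ⟨B, hB1, hB2, -⟩ := hFg a ha
      have h2 : τ ≤ v (inp ρ (S.g a)) := (hτ _).1 (hg a)
      have h3 := mem_lev.1 hB1
      have h4 := hB B (mem_lev.2 ⟨h3.1, h3.2.1, h2.trans h3.2.2⟩)
      omega
    rw [h1, card_univ, mul_comm] at hE
    exact (Nat.le_of_mul_le_mul_right hE hA).trans hls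

end Pool.Agent.PC
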