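import Pool.Agent.helper64.PC.SpecR

/-!
# pc:APR
-/

set_option autoImplicit false

namespace Pool.Agent.PC

open Finset Pool.Agent.PB

theorem APR_famV {P : Type} [Fintype P] [DecidableEq P] (PF : Finset P → Prop) (t : ℕ) (z : P) (B : Finset P) :
    B ∈ famV PF t z ↔ PF B ∧ B.card ≤ 2 * t ∧ z ∈ B := by
  classical
  unfold famV
  simp

/-- the level function of a variable -/
theorem APR_var (hCLV : CLV_stmt) {P A Om : Type} [Fintype P] [DecidableEq P] [Fintype A] [Fintype Om]
    (S : Sys P A Om) (a₀ : A) {N : ℕ} (ρ : P ≃ Fin N) (j : Fin N) :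
    ∃ F : Finset P → ℝ, (∀ τ, ClF S.PF S.k S.t (lev S.PF S.t F τ)) ∧
      (∀ a, AccT S.t (lev S.PF S.t F (if inp ρ (S.g a) j = true then (1 : ℝ) else 0)) (S.g a)) ∧
      ∀ w B, B ⊆ S.nu w → F B ≤ (if inp ρ (S.nu w) j = true then (1 : ℝ) else 0) := by
  classical
  have hPF0 : S.PF ∅ := S.gPF a₀ ∅ (empty_subset _)
  refine ⟨fun B => if ρ.symm j ∈ B then 1 else 0, ?_, ?_, ?_⟩
  · intro τ
    by_cases h0 : τ ≤ 0
    · have hm : ∀ B, B ∈ lev S.PF S.t (fun B : Finset P => if ρ.symm j ∈ B then (1 : ℝ) else 0) τ ↔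
          S.PF B ∧ B.card ≤ 2 * S.t := by
        intro B
        rw [mem_lev]
        constructor
        · rintro ⟨h1, h2, -⟩
          exact ⟨h1, h2⟩
        · rintro ⟨h1, h2⟩
          refine ⟨h1, h2, h0.trans ?_⟩
          show (0 : ℝ) ≤ if ρ.symm j ∈ B then (1 : ℝ) else 0
          split_ifs <;> norm_num
      refine ⟨fun B hB => (hm B).1 hB, fun B _ B' _ h1 h2 => (hm B').2 ⟨h1, h2⟩, ?_⟩
      intro U G i hU hne hG _
      obtain ⟨B, hB⟩ := hne
      exact (hm U).2 ⟨S.sub _ _ subset_union_left ((hm _).1 (hG B hB).2.2).1, hU⟩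
    · by_cases h1 : τ ≤ 1
      · have hm : lev S.PF S.t (fun B : Finset P => if ρ.symm j ∈ B then (1 : ℝ) else 0) τ =
            famV S.PF S.t (ρ.symm j) := by
          ext B
          rw [mem_lev, APR_famV]
          constructor
          · rintro ⟨h2, h3, h4⟩
            refine ⟨h2, h3, ?_⟩
            by_contra h5
            simp only [h5, if_false] at h4
            exact h0 h4
          · rintro ⟨h2, h3, h4⟩
            refine ⟨h2, h3, ?_⟩
            simp only [h4, if_true]
            exact h1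
        rw [hm]
        exact hCLV P S.PF S.k S.t (ρ.symm j) S.sub S.k2
      · have hm : ∀ B, B ∉ lev S.PF S.t (fun B : Finset P => if ρ.symm j ∈ B then (1 : ℝ) else 0) τ := by
          intro B hB
          have h2 := (mem_lev.1 hB).2.2
          apply h1
          refine h2.trans ?_
          show (if ρ.symm j ∈ B then (1 : ℝ) else 0) ≤ 1
          split_ifs <;> norm_num
        refine ⟨fun B hB => absurd hB (hm B), fun B hB => absurd hB (hm B), ?_⟩
        intro U G i hU hne hG _
        obtain ⟨B, hB⟩ := hne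
        exact absurd (hG B hB).2.2 (hm _)
  · intro a
    by_cases h : ρ.symm j ∈ S.g a
    · refine ⟨{ρ.symm j}, mem_lev.2 ⟨S.gPF a _ (singleton_subset_iff.2 h), ?_, ?_⟩, ?_,
        singleton_subset_iff.2 h⟩
      · rw [card_singleton]
        have := S.t1
        omega
      · simp only [mem_singleton, if_true]
        split_ifs <;> norm_num
      · rw [card_singleton]
        exact S.t1
    · refine ⟨∅, mem_lev.2 ⟨hPF0, by simp, ?_⟩, by simp, by simp⟩
      simp [inp, h]
  · intro w B hB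
    by_cases h : ρ.symm j ∈ B
    · have h2 : ρ.symm j ∈ S.nu w := hB h
      simp [inp, h, h2]
    · simp only [h, if_false]
      split_ifs <;> norm_num

theorem APR (hCLV : CLV_stmt) (hCLR : CLR_stmt) (hCRC : CRC_stmt) (hGPR : GPR_stmt) : APR_stmt := by
  intro P A Om _ _ _ _ S N ρ l hA hl
  classical
  obtain ⟨a₀⟩ := Fintype.card_pos_iff.1 hA
  have hPF0 : S.PF ∅ := S.gPF a₀ ∅ (empty_subset _)
  induction hl with
  | nil =>
    refine ⟨∅, ∅, by simp, by simp, ?_⟩
    rintro v (hv | ⟨j, rfl⟩)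
    · exact absurd hv List.not_mem_nil
    · obtain ⟨F, h1, h2, h3⟩ := APR_var hCLV S a₀ ρ j
      exact ⟨F, h1, fun a _ => h2 a, fun w _ B _ _ hB => h3 w B hB⟩
  | step l d φ a hl hd hφ ha ih =>
    obtain ⟨E, E', hE, hE', hF⟩ := ih
    have hFa : ∀ i : Fin d, ∃ F : Finset P → ℝ, (∀ τ, ClF S.PF S.k S.t (lev S.PF S.t F τ)) ∧
        (∀ b, b ∉ E → AccT S.t (lev S.PF S.t F (a i (inp ρ (S.g b)))) (S.g b)) ∧
        ∀ w, w ∉ E' → ∀ B, S.PF B → B.card ≤ S.t → B ⊆ S.nu w → F B ≤ a i (inp ρ (S.nu w)) :=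
      fun i => hF (a i) (ha i)
    choose F hFc hFg hFn using hFa
    set Φ : Om → ℝ := fun w => φ fun i => hat S.PF S.t (F i) (S.nu w) with hΦ
    set va : A → ℝ := fun b => φ fun i => hat S.PF S.t (F i) (S.g b) with hva
    set T : Finset ℝ := univ.image Φ ∪ univ.image va with hT
    have hTa : ∀ b, va b ∈ T := fun b => mem_union_right _ (mem_image_of_mem _ (mem_univ _))
    have hTw : ∀ w, Φ w ∈ T := fun w => mem_union_left _ (mem_image_of_mem _ (mem_univ _))
    have hTne : T.Nonempty := ⟨_, hTa a₀⟩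
    set β : ℝ := T.min' hTne with hβ
    have hβT : ∀ τ ∈ T, β ≤ τ := fun τ hτ => min'_le T τ hτ
    obtain ⟨D, hD1, hD2, hD3, hD4⟩ := hCLR P Om S.PF S.nu S.t S.M Φ T β (fun w => hβT _ (hTw w)) hβT
    have hDc := hCRC P A Om S Φ T β D hD1 hβT hD2 hD4
    have hlost := hGPR P A Om S d hd F hFc φ hφ D (fun b B hB1 hB2 h => hD4 (va b) (hTa b) B hB1 hB2 h)
    rw [ct_eq] at hlost
    set E₁ : Finset A := univ.filter fun b => ¬ AccT S.t (lev S.PF S.t D (va b)) (S.g b) with hE₁
    rw [ct_eq] at hD3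
    set E₁' : Finset Om := univ.filter fun w => ∃ B, B ⊆ S.nu w ∧ Φ w < D B with hE₁'
    refine ⟨E ∪ E₁, E' ∪ E₁', ?_, ?_, ?_⟩
    · have h1 : (E ∪ E₁).card * 4 ^ S.t ≤ (E.card + E₁.card) * 4 ^ S.t :=
        Nat.mul_le_mul_right _ (card_union_le _ _)
      refine h1.trans ?_
      rw [List.length_cons, add_mul, add_mul, one_mul]
      exact Nat.add_le_add hE hlost
    · have h1 : (E' ∪ E₁').card * S.M ≤ (E'.card + E₁'.card) * S.M :=
        Nat.mul_le_mul_right _ (card_union_le _ _)
      refine h1.trans ?_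
      rw [List.length_cons, add_mul, add_mul, one_mul]
      exact Nat.add_le_add hE' hD3
    · intro v hv
      have hv' : v = (fun x => φ fun i => a i x) ∨
          (v ∈ l ∨ ∃ j, v = fun x => if x j = true then 1 else 0) := by
        rcases hv with hv | hv
        · rcases List.mem_cons.1 hv with h | h
          · exact Or.inl h
          · exact Or.inr (Or.inl h)
        · exact Or.inr (Or.inr hv)
      rcases hv' with hv | hv
      · subst hv
        refine ⟨D, hDc, ?_, ?_⟩
        · intro b hb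
          rw [mem_union, not_or] at hb
          have hacc : AccT S.t (lev S.PF S.t D (va b)) (S.g b) := by
            by_contra h
            exact hb.2 (mem_filter.2 ⟨mem_univ _, h⟩)
          obtain ⟨B, hB, hBt, hBb⟩ := hacc
          have hB' := mem_lev.1 hB
          refine ⟨B, mem_lev.2 ⟨hB'.1, hB'.2.1, le_trans ?_ hB'.2.2⟩, hBt, hBb⟩
          apply hφ
          intro i
          obtain ⟨B₁, hB₁, hB₁t, hB₁b⟩ := hFg i b hb.1
          have hB₁' := mem_lev.1 hB₁
          exact hB₁'.2.2.trans (le_hat hB₁'.1 hB₁t hB₁b)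
        · intro w hw B hBP hBt hBw
          rw [mem_union, not_or] at hw
          have h1 : D B ≤ Φ w := by
            by_contra h
            push Not at h
            exact hw.2 (mem_filter.2 ⟨mem_univ _, B, hBw, h⟩)
          refine h1.trans ?_
          apply hφ
          intro i
          obtain ⟨B₁, hB₁P, hB₁t, hB₁w, hB₁h⟩ := exists_hat hPF0 S.t (F i) (S.nu w)
          show hat S.PF S.t (F i) (S.nu w) ≤ a i (inp ρ (S.nu w))
          rw [← hB₁h]
          exact hFn i w hw.1 B₁ hB₁P hB₁t hB₁w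
      · obtain ⟨F', h1, h2, h3⟩ := hF v hv
        refine ⟨F', h1, fun b hb => h2 b fun h => hb (mem_union_left _ h),
          fun w hw => h3 w fun h => hw (mem_union_left _ h)⟩

end Pool.Agent.PC
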