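import Pool.Agent.helper64.PC.SpecX

/-!
# pc:CLV
-/

set_option autoImplicit false

namespace Pool.Agent.PC

open Finset Pool.Agent.PB

theorem CLV_mem {P : Type} [Fintype P] [DecidableEq P] (PF : Finset P → Prop) (t : ℕ) (z : P) (B : Finset P) :
    B ∈ famV PF t z ↔ PF B ∧ B.card ≤ 2 * t ∧ z ∈ B := by
  classical
  unfold famV
  simp

theorem CLV : CLV_stmt := by
  intro P _ _ PF k t z hsub hk
  refine ⟨?_, ?_, ?_⟩
  · intro B hB
    have h := (CLV_mem PF t z B).1 hB
    exact ⟨h.1, h.2.1⟩
  · intro B hB B' hBB hPF hc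
    have h := (CLV_mem PF t z B).1 hB
    exact (CLV_mem PF t z B').2 ⟨hPF, hc, hBB h.2.2⟩
  · intro U F i hU hne hF hspr
    obtain ⟨B₀, hB₀⟩ := hne
    obtain ⟨-, -, hm⟩ := hF B₀ hB₀
    have hm' := (CLV_mem PF t z _).1 hm
    by_cases hz : z ∈ U
    · exact (CLV_mem PF t z U).2 ⟨hsub U _ subset_union_left hm'.1, hU, hz⟩
    · exfalso
      have hall : (F.filter fun B => ({z} : Finset P) ⊆ B) = F := by
        apply filter_true_of_mem
        intro B hB
        have h1 := (CLV_mem PF t z _).1 (hF B hB).2.2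
        rw [singleton_subset_iff]
        rcases mem_union.1 h1.2.2 with h | h
        · exact absurd h hz
        · exact h
      have h2 := hspr {z}
      rw [hall, card_singleton, pow_one] at h2
      have h3 : 0 < F.card := card_pos.2 ⟨B₀, hB₀⟩
      nlinarith

end Pool.Agent.PC
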