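import Pool.Agent.helper64.PC.SpecX

/-!
# pc:EXM
-/

set_option autoImplicit false

namespace Pool.Agent.PC

open Finset Pool.Agent.PB

theorem EXM : EXM_stmt := by
  intro P _ _ C U Y hd hY
  classical
  induction Y using Finset.strongInduction with
  | H Y ih =>
    by_cases h : ∃ Z, Z ⊂ Y ∧ U ∪ Z ∈ C
    · obtain ⟨Z, hZ, hA⟩ := h
      obtain ⟨W, hW, hW'⟩ := ih Z hZ (hd.mono_right hZ.1) hA
      exact ⟨W, hW.trans hZ.1, hW'⟩
    · push Not at h
      exact ⟨Y, Subset.refl _, by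
        unfold MnF
        exact mem_filter.2 ⟨mem_univ _, rfl, hd, hY, h⟩⟩

end Pool.Agent.PC
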