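import Pool.Agent.helper64.PC.SpecR

/-!
# pc:GPR
-/

set_option autoImplicit false

namespace Pool.Agent.PC

open Finset Pool.Agent.PB

theorem GPR_mem {P : Type} [Fintype P] [DecidableEq P] (C : Finset (Finset P)) (U : Finset P) (b : ℕ)
    (Y : Finset P) :
    Y ∈ MnF C U b ↔ Y.card = b ∧ Disjoint U Y ∧ U ∪ Y ∈ C ∧ ∀ Z, Z ⊂ Y → U ∪ Z ∉ C := by
  classical
  unfold MnF
  simp

/-- the sets of level larger than a given number form a closed family -/
theorem GPR_cl {P : Type} [Fintype P] [DecidableEq P] (PF : Finset P → Prop) (k t : ℕ) (F : Finset P → ℝ)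
    (hF : ∀ τ, ClF PF k t (lev PF t F τ)) (x : ℝ) :
    ∃ C : Finset (Finset P), ClF PF k t C ∧ ∀ B, B ∈ C ↔ PF B ∧ B.card ≤ 2 * t ∧ x < F B := by
  classical
  by_cases hV : ((univ : Finset (Finset P)).filter fun B => x < F B).Nonempty
  · obtain ⟨B₀, hB₀, hmin⟩ := exists_min_image _ F hV
    refine ⟨lev PF t F (F B₀), hF _, fun B => ?_⟩
    rw [mem_lev]
    constructor
    · rintro ⟨h1, h2, h3⟩
      exact ⟨h1, h2, lt_of_lt_of_le (mem_filter.1 hB₀).2 h3⟩
    · rintro ⟨h1, h2, h3⟩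
      exact ⟨h1, h2, hmin B (mem_filter.2 ⟨mem_univ _, h3⟩)⟩
  · rw [not_nonempty_iff_eq_empty] at hV
    refine ⟨∅, ⟨by simp, by simp, ?_⟩, fun B => ?_⟩
    · intro U G i _ hne hG _
      obtain ⟨B, hB⟩ := hne
      exact absurd (hG B hB).2.2 (notMem_empty _)
    · constructor
      · intro h
        exact absurd h (notMem_empty _)
      · rintro ⟨-, -, h⟩
        have : B ∈ (univ : Finset (Finset P)).filter fun B => x < F B := mem_filter.2 ⟨mem_univ _, h⟩
        rw [hV] at this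
        exact absurd this (notMem_empty _)

theorem GPR (hGP1 : GP1_stmt) (hGP2 : GP2_stmt) (hEXM : EXM_stmt) : GPR_stmt := by
  intro P A Om _ _ _ _ S d hd F hF φ hφ D hD
  classical
  rw [ct_eq]
  set E : Finset A := univ.filter fun a => ¬ AccT S.t (lev S.PF S.t D
    (φ fun i => hat S.PF S.t (F i) (S.g a))) (S.g a) with hE
  by_cases hne : E.Nonempty
  swap
  · rw [not_nonempty_iff_eq_empty.1 hne]
    simp
  obtain ⟨U, hU2, hUa, hUt, hUm⟩ := hGP1 P A Om S E hne
  by_cases ht : S.t ≤ U.card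
  · exact hUt ht
  exfalso
  push Not at ht
  have hC : ∀ i, ∃ C : Finset (Finset P), ClF S.PF S.k S.t C ∧
      ∀ B, B ∈ C ↔ S.PF B ∧ B.card ≤ 2 * S.t ∧ F i U < F i B :=
    fun i => GPR_cl S.PF S.k S.t (F i) (hF i) (F i U)
  choose C hCl hCm using hC
  obtain ⟨a, haE, hUa, hno⟩ := hGP2 P A Om S E U ht hUa hUm d hd C hCl
  have hPF0 : S.PF ∅ := S.gPF a ∅ (empty_subset _)
  have hPFU : S.PF U := S.gPF a U hUa
  have hcl : ∀ i, hat S.PF S.t (F i) (S.g a) ≤ F i U := by
    intro i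
    by_contra hlt
    push Not at hlt
    obtain ⟨B, hBPF, hBt, hBa, hBh⟩ := exists_hat hPF0 S.t (F i) (S.g a)
    rw [← hBh] at hlt
    have hBC : B ∈ C i := (hCm i B).2 ⟨hBPF, by omega, hlt⟩
    have hUB : U ∪ B ∈ C i := by
      refine (hCl i).up B hBC (U ∪ B) subset_union_right (S.gPF a _ (union_subset hUa hBa)) ?_
      exact (card_union_le _ _).trans (by omega)
    have hUB' : U ∪ (B \ U) ∈ C i := by
      rw [union_sdiff_self_eq_union]
      exact hUB
    obtain ⟨Z, hZ, hZm⟩ := hEXM P (C i) U (B \ U) disjoint_sdiff hUB'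
    by_cases hZ0 : Z.card = 0
    · rw [card_eq_zero] at hZ0
      subst hZ0
      have h1 := ((GPR_mem _ _ _ _).1 hZm).2.2.1
      rw [union_empty] at h1
      exact lt_irrefl _ ((hCm i U).1 h1).2.2
    · have hZB : Z ⊆ B := hZ.trans sdiff_subset
      exact hno i Z.card (Nat.one_le_iff_ne_zero.2 hZ0) ((card_le_card hZB).trans hBt) Z hZm (hZB.trans hBa)
  have hDU : (φ fun i => hat S.PF S.t (F i) (S.g a)) ≤ D U := by
    apply hD a U hPFU hU2
    rw [ct_false]
    · simp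
    · rintro w ⟨hUw, hlt, -⟩
      apply absurd hlt
      rw [not_lt]
      apply hφ
      intro i
      exact (hcl i).trans (le_hat hPFU ht.le hUw)
  have haE' := (mem_filter.1 haE).2
  exact haE' ⟨U, mem_lev.2 ⟨hPFU, hU2, hDU⟩, ht.le, hUa⟩

end Pool.Agent.PC
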