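import Pool.Agent.helper64.PC.SpecX
import Pool.Agent.helper64.PB.SpecF

/-!
# pc:MNC
-/

set_option autoImplicit false

namespace Pool.Agent.PC

open Finset Pool.Agent.PB

theorem MNC_mem {P : Type} [Fintype P] [DecidableEq P] (C : Finset (Finset P)) (U : Finset P) (b : ℕ)
    (Y : Finset P) :
    Y ∈ MnF C U b ↔ Y.card = b ∧ Disjoint U Y ∧ U ∪ Y ∈ C ∧ ∀ Z, Z ⊂ Y → U ∪ Z ∉ C := by
  classical
  unfold MnF
  simp

theorem MNC (hSPF : SPF_stmt) : MNC_stmt := by
  intro P _ _ PF k t C hC b U hU
  classical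
  by_contra hlt
  push Not at hlt
  obtain ⟨Y₀, hY₀b, hY₀, hmax⟩ := hSPF P (MnF C U b) b k (fun B hB => ((MNC_mem C U b B).1 hB).1) hlt
  set G : Finset (Finset P) := (MnF C U b).filter fun Y => Y₀ ⊆ Y with hG
  set F : Finset (Finset P) := G.image fun Y => Y \ Y₀ with hF
  have hinj : Set.InjOn (fun Y : Finset P => Y \ Y₀) (G : Set (Finset P)) := by
    intro Y hY Y' hY' h
    have h1 : Y₀ ⊆ Y := (mem_filter.1 hY).2
    have h2 : Y₀ ⊆ Y' := (mem_filter.1 hY').2
    have h3 : Y \ Y₀ = Y' \ Y₀ := h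
    rw [← sdiff_union_of_subset h1, ← sdiff_union_of_subset h2, h3]
  have hFc : F.card = G.card := card_image_of_injOn hinj
  have hGpos : 0 < G.card := lt_of_le_of_lt (Nat.zero_le _) hY₀
  obtain ⟨Y₁, hY₁⟩ := card_pos.1 hGpos
  have hY₁' := mem_filter.1 hY₁
  have hY₁m := (MNC_mem C U b Y₁).1 hY₁'.1
  -- `U ∪ Y₀ ∈ C`
  have hmem : U ∪ Y₀ ∈ C := by
    apply hC.spr (U ∪ Y₀) F (b - Y₀.card)
    · exact (card_union_le _ _).trans (by omega)
    · exact ⟨Y₁ \ Y₀, mem_image.2 ⟨Y₁, hY₁, rfl⟩⟩
    · intro B hB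
      obtain ⟨Y, hY, rfl⟩ := mem_image.1 hB
      have hY' := mem_filter.1 hY
      have hYm := (MNC_mem C U b Y).1 hY'.1
      refine ⟨?_, ?_, ?_⟩
      · rw [card_sdiff_of_subset hY'.2, hYm.1]
      · rw [disjoint_union_left]
        exact ⟨hYm.2.1.mono_right sdiff_subset, disjoint_sdiff⟩
      · have : U ∪ Y₀ ∪ Y \ Y₀ = U ∪ Y := by
          rw [union_assoc, union_sdiff_of_subset hY'.2]
        rw [this]
        exact hYm.2.2.1
    · intro Z
      by_cases hZe : Z = ∅
      · subst hZe
        simp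
      · -- members containing `Z`
        by_cases hZ0 : (F.filter fun B => Z ⊆ B).card = 0
        · rw [hZ0]
          simp
        · obtain ⟨B, hB⟩ := card_pos.1 (Nat.pos_of_ne_zero hZ0)
          obtain ⟨hBF, hZB⟩ := mem_filter.1 hB
          obtain ⟨Y, hY, rfl⟩ := mem_image.1 hBF
          have hY' := mem_filter.1 hY
          have hYm := (MNC_mem C U b Y).1 hY'.1
          have hdZ : Disjoint Y₀ Z := disjoint_sdiff.mono_right hZB
          have hsub : Y₀ ∪ Z ⊆ Y := union_subset hY'.2 (hZB.trans sdiff_subset)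
          have hcU : (Y₀ ∪ Z).card = Y₀.card + Z.card := card_union_of_disjoint hdZ
          have hcle : (Y₀ ∪ Z).card ≤ b := by
            rw [← hYm.1]
            exact card_le_card hsub
          have hss : Y₀ ⊂ Y₀ ∪ Z := by
            rw [ssubset_iff_subset_ne]
            refine ⟨subset_union_left, fun h => hZe ?_⟩
            have h1 : Z ⊆ Y₀ := by
              rw [h]
              exact subset_union_right
            exact disjoint_self_iff_empty Z |>.1 (hdZ.mono_left h1)
          have hb := hmax (Y₀ ∪ Z) hss hcle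
          have hle : (F.filter fun B => Z ⊆ B).card ≤ ((MnF C U b).filter fun Y => Y₀ ∪ Z ⊆ Y).card := by
            have : (F.filter fun B => Z ⊆ B) ⊆
                (((MnF C U b).filter fun Y => Y₀ ∪ Z ⊆ Y).image fun Y => Y \ Y₀) := by
              intro B hB
              obtain ⟨hBF, hZB⟩ := mem_filter.1 hB
              obtain ⟨Y, hY, rfl⟩ := mem_image.1 hBF
              have hY' := mem_filter.1 hY
              exact mem_image.2 ⟨Y, mem_filter.2 ⟨hY'.1, union_subset hY'.2 (hZB.trans sdiff_subset)⟩, rfl⟩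
            exact (card_le_card this).trans card_image_le
          rw [hcU] at hb hcle
          calc (F.filter fun B => Z ⊆ B).card * k ^ Z.card
              ≤ k ^ (b - (Y₀.card + Z.card)) * k ^ Z.card := Nat.mul_le_mul_right _ (hle.trans hb)
            _ = k ^ (b - Y₀.card) := by
              rw [← pow_add]
              congr 1
              omega
            _ ≤ F.card := by
              rw [hFc]
              exact hY₀.le
  have hss : Y₀ ⊂ Y₁ := by
    rw [ssubset_iff_subset_ne]
    refine ⟨hY₁'.2, fun h => ?_⟩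
    rw [h, hY₁m.1] at hY₀b
    exact lt_irrefl _ hY₀b
  exact hY₁m.2.2.2 Y₀ hss hmem

end Pool.Agent.PC
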